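import Pool.Agent.Lib.MP_1433c5_co.Bounds

/-!
The number `f(n)` of completely independent spanning trees of the hypercube `Q_n` satisfies
`f(n) / n → 1 / 2`.
-/

namespace Pool.Agent.Results.MP_1433c5_co.LimitHalf

open Pool.Agent.Lib.MP_1433c5_co

/-- For every `n ≥ 1` the number `f n` is the largest `k` such that `Q_n` contains `k` completely
independent spanning trees, and `f n / n` converges to `1/2`. -/
theorem result :
    (∀ n : ℕ, 1 ≤ n →
      IsGreatest {k : ℕ | ∃ T : Fin k → SimpleGraph (Fin n → Bool), IsCIST (cube (Fin n)) T}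
        (f n)) ∧
    Filter.Tendsto (fun n : ℕ => (f n : ℝ) / (n : ℝ)) Filter.atTop (nhds (1 / 2)) := by
  refine ⟨fun n hn => ⟨f_mem hn, fun k hk => le_f hn hk⟩, ?_⟩
  rw [Metric.tendsto_atTop]
  intro ε hε
  obtain ⟨N1, hN1⟩ := eventually_lower (min (ε / 2) 1) (lt_min (by positivity) one_pos)
    (min_le_right _ _)
  obtain ⟨N2, hN2⟩ := exists_nat_ge (1 / ε)
  refine ⟨max (max N1 N2) 1, ?_⟩
  intro n hn
  have h1 : N1 ≤ n := le_trans (le_trans (le_max_left _ _) (le_max_left _ _)) hn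
  have h2 : N2 ≤ n := le_trans (le_trans (le_max_right _ _) (le_max_left _ _)) hn
  have h3 : 1 ≤ n := le_trans (le_max_right _ _) hn
  have hn0 : (0 : ℝ) < n := by exact_mod_cast h3
  have hlow := hN1 n h1
  have hup : 2 * f n ≤ n + 1 := upper_bound h3 (f_mem h3)
  have hupR : 2 * (f n : ℝ) ≤ n + 1 := by exact_mod_cast hup
  have hnε : 1 ≤ ε * n := by
    have h4 : 1 / ε ≤ n := hN2.trans (by exact_mod_cast h2)
    rw [div_le_iff₀ hε] at h4
    linarith
  have hmin : min (ε / 2) 1 ≤ ε / 2 := min_le_left _ _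
  rw [Real.dist_eq, abs_lt]
  constructor
  · rw [lt_sub_iff_add_lt, lt_div_iff₀ hn0]
    nlinarith
  · rw [sub_lt_iff_lt_add, div_lt_iff₀ hn0]
    nlinarith

end Pool.Agent.Results.MP_1433c5_co.LimitHalf
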